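import Pool.Agent.Lib.helper16.GapC0
import Pool.Agent.Lib.helper16.GapC1
import Pool.Agent.Lib.helper16.GapC2
import Pool.Agent.Lib.helper16.GapC3

namespace Pool.Agent.Results.MP_69d63a_nt.Positive

/-- The primes indexed from zero: `p 0 = 2`, `p 1 = 3`, ... -/
noncomputable def p (i : ℕ) : ℕ := Nat.nth Nat.Prime i

/-- The prime gap `g(n) = p_n - p_{n-1}` (used for `n ≥ 1`). -/
noncomputable def g (n : ℕ) : ℤ := (p n : ℤ) - (p (n - 1) : ℤ)

/-- The score `a(n) = ∑_{k=2}^{n} sign (g(k) - g(k-1))`. -/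
noncomputable def a (n : ℕ) : ℤ := ∑ k ∈ Finset.Icc 2 n, Int.sign (g k - g (k - 1))

open Pool.Agent.Lib.helper16.Gap in
theorem result : ∃ n : ℕ, 250000 < n ∧ 0 < a n := by
  have h := s19 (s18 (s17 (s16 (s15 (s14 (s13 (s12 (s11 (s10 (s9 (s8 (s7 (s6 (s5 (s4 (s3 (s2
    (s1 (s0 inv2209)))))))))))))))))))
  obtain ⟨n, -, -, -, -, -, h6⟩ := h
  have h7 := abs_le.mp (abs_score n)
  have e : a n = score n := rfl
  refine ⟨n, ?_, ?_⟩
  · omega
  · rw [e]; omega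

end Pool.Agent.Results.MP_69d63a_nt.Positive
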